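import Pool.Agent.H32.RK.TargetsA

/-!
# Pairs of quadratic forms over a number field: traces and sizes (row CMD)
-/

set_option autoImplicit false

open Finset NumberField Pool.Agent.H32.RQ Pool.Agent.H32.RK

namespace Pool.Agent.H81.RK

theorem place_ratCast {K : Type} [Field K] [NumberField K] (w : InfinitePlace K) (q : ℚ) :
    w (q : K) = |(q : ℝ)| := by
  rw [← InfinitePlace.norm_embedding_eq, map_ratCast, Complex.norm_ratCast]

open Classical in
theorem pf_CMD (K : Type) [Field K] [NumberField K] (hDUB : T_DUB K) : T_CMD K := by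
  intro ι _ ω
  obtain ⟨h1, h2, -⟩ := hDUB ι ω
  have hne : Nonempty ι := ω.index_nonempty
  -- the dual basis
  have hex : ∀ m : ι, ∃ a : K, ∀ l, Algebra.trace ℚ K (a * ω l) = if l = m then 1 else 0 :=
    fun m => h1 fun l => if l = m then 1 else 0
  choose am ham using hex
  set C₁ : ℝ := ∑ l, ∑ σ : K →ₐ[ℚ] ℂ, ‖σ (ω l : K)‖ with hC₁
  set C₂ : ℝ := ∑ w : InfinitePlace K, ∑ m, w (am m) with hC₂
  have hC₁0 : 0 ≤ C₁ := Finset.sum_nonneg fun l _ => Finset.sum_nonneg fun σ _ => norm_nonneg _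
  have hC₂0 : 0 ≤ C₂ := Finset.sum_nonneg fun l _ => Finset.sum_nonneg fun σ _ => apply_nonneg _ _
  refine ⟨1 + C₁ + C₂, by linarith, ?_, ?_⟩
  · intro a X hX l
    have hX0 : 0 ≤ X := by
      obtain ⟨w⟩ : Nonempty (InfinitePlace K) := inferInstance
      exact (apply_nonneg w a).trans (hX w)
    have h3 : ((Algebra.trace ℚ K (a * ω l) : ℚ) : ℂ) = ∑ σ : K →ₐ[ℚ] ℂ, σ (a * ω l) := by
      rw [← trace_eq_sum_embeddings ℂ]
      exact (eq_ratCast (algebraMap ℚ ℂ) _).symm
    have h4 : |((Algebra.trace ℚ K (a * ω l) : ℚ) : ℝ)| =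
        ‖((Algebra.trace ℚ K (a * ω l) : ℚ) : ℂ)‖ := by
      rw [Complex.norm_ratCast]
    rw [h4, h3]
    have h5 : ∀ σ : K →ₐ[ℚ] ℂ, ‖σ a‖ ≤ X := fun σ => hX (InfinitePlace.mk (σ : K →+* ℂ))
    calc ‖∑ σ : K →ₐ[ℚ] ℂ, σ (a * ω l)‖ ≤ ∑ σ : K →ₐ[ℚ] ℂ, ‖σ (a * ω l)‖ := norm_sum_le _ _
      _ ≤ ∑ σ : K →ₐ[ℚ] ℂ, X * ‖σ (ω l : K)‖ := by
          refine Finset.sum_le_sum fun σ _ => ?_
          rw [map_mul, norm_mul]
          exact mul_le_mul_of_nonneg_right (h5 σ) (norm_nonneg _)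
      _ = (∑ σ : K →ₐ[ℚ] ℂ, ‖σ (ω l : K)‖) * X := by rw [← Finset.mul_sum, mul_comm]
      _ ≤ C₁ * X := by
          refine mul_le_mul_of_nonneg_right ?_ hX0
          exact Finset.single_le_sum (f := fun l => ∑ σ : K →ₐ[ℚ] ℂ, ‖σ (ω l : K)‖)
            (fun l _ => Finset.sum_nonneg fun σ _ => norm_nonneg _) (Finset.mem_univ l)
      _ ≤ (1 + C₁ + C₂) * X := mul_le_mul_of_nonneg_right (by linarith) hX0
  · intro a X hX w
    have hX0 : 0 ≤ X := by
      obtain ⟨l⟩ := hne
      exact (abs_nonneg _).trans (hX l)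
    have h3 : a = ∑ m, (Algebra.trace ℚ K (a * ω m)) • am m := by
      refine h2 _ _ fun l => ?_
      rw [Finset.sum_mul, map_sum]
      have h4 : ∀ m, Algebra.trace ℚ K ((Algebra.trace ℚ K (a * ω m)) • am m * ω l) =
          if l = m then Algebra.trace ℚ K (a * ω m) else 0 := by
        intro m
        rw [smul_mul_assoc, map_smul, ham m l, smul_eq_mul]
        split_ifs
        · rw [mul_one]
        · rw [mul_zero]
      rw [Finset.sum_congr rfl fun m _ => h4 m, Finset.sum_ite_eq, if_pos (Finset.mem_univ l)]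
    have h5 : w a ≤ ∑ m, w ((Algebra.trace ℚ K (a * ω m)) • am m) := by
      conv_lhs => rw [h3]
      rw [← InfinitePlace.norm_embedding_eq, map_sum]
      refine (norm_sum_le _ _).trans (le_of_eq ?_)
      refine Finset.sum_congr rfl fun m _ => ?_
      rw [InfinitePlace.norm_embedding_eq]
    calc w a ≤ ∑ m, w ((Algebra.trace ℚ K (a * ω m)) • am m) := h5
      _ ≤ ∑ m, X * w (am m) := by
          refine Finset.sum_le_sum fun m _ => ?_
          rw [Algebra.smul_def, map_mul]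
          refine mul_le_mul_of_nonneg_right ?_ (apply_nonneg _ _)
          rw [eq_ratCast (algebraMap ℚ K), place_ratCast]
          exact hX m
      _ = (∑ m, w (am m)) * X := by rw [← Finset.mul_sum, mul_comm]
      _ ≤ C₂ * X := by
          refine mul_le_mul_of_nonneg_right ?_ hX0
          exact Finset.single_le_sum (f := fun w : InfinitePlace K => ∑ m, w (am m))
            (fun w _ => Finset.sum_nonneg fun m _ => apply_nonneg _ _) (Finset.mem_univ w)
      _ ≤ (1 + C₁ + C₂) * X := mul_le_mul_of_nonneg_right (by linarith) hX0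

end Pool.Agent.H81.RK
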