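import Pool.Agent.H32.RK.TargetsA
import Pool.Agent.H32.RK.TargetsB

/-!
# Pairs of quadratic forms over a number field: the number of the frequencies (row PX1)
-/

set_option autoImplicit false

open Finset NumberField Pool.Agent.H32.RK
open Pool.Agent.H32.RQ (Mon nu md mnr Prm)

namespace Pool.Agent.H81.RK

section aux

variable {K : Type} [Field K] [NumberField K]

theorem place_sum_le {α : Type} (w : InfinitePlace K) (S : Finset α) (f : α → K) :
    w (∑ a ∈ S, f a) ≤ ∑ a ∈ S, w (f a) := by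
  rw [← InfinitePlace.norm_embedding_eq, map_sum]
  refine (norm_sum_le _ _).trans (le_of_eq ?_)
  exact Finset.sum_congr rfl fun m _ => InfinitePlace.norm_embedding_eq w _

theorem place_intCast (w : InfinitePlace K) (n : ℤ) : w (n : K) = |(n : ℝ)| := by
  rw [← InfinitePlace.norm_embedding_eq, map_intCast, Complex.norm_intCast]

theorem place_natCast (w : InfinitePlace K) (n : ℕ) : w (n : K) = (n : ℝ) := by
  rw [← InfinitePlace.norm_embedding_eq, map_natCast, Complex.norm_natCast]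

theorem place_sub_le (w : InfinitePlace K) (a b : K) : w (a - b) ≤ w a + w b := by
  rw [← InfinitePlace.norm_embedding_eq, ← InfinitePlace.norm_embedding_eq w a,
    ← InfinitePlace.norm_embedding_eq w b, map_sub]
  exact norm_sub_le _ _

theorem cb_coe {s : ℕ} (a : Mon s → ℤ) (x : Fin s → 𝓞 K) :
    ((cb a x : 𝓞 K) : K) = ∑ p, (a p : K) * ((x p.1.1 : K) * (x p.1.2 : K)) := by
  have h : algebraMap (𝓞 K) K (cb a x) = ∑ p, (a p : K) * ((x p.1.1 : K) * (x p.1.2 : K)) := by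
    unfold cb nu
    rw [map_sum]
    refine Finset.sum_congr rfl fun p _ => ?_
    rw [map_mul, map_mul, map_intCast]
  exact h

theorem comb_le {s : ℕ} (x y : Fin s → 𝓞 K) (u v : K) (E CD : ℝ) (a : Mon s → ℤ)
    (ha : ∀ p, |(a p : ℝ)| ≤ CD) (w : InfinitePlace K)
    (h : ∀ i l, w (u * x i * x l + v * y i * y l) ≤ E) (hCD : 0 ≤ CD) :
    w (u * (cb a x : 𝓞 K) + v * (cb a y : 𝓞 K)) ≤ md s * CD * E := by
  have h1 : u * (cb a x : 𝓞 K) + v * (cb a y : 𝓞 K) =
      ∑ p : Mon s, (a p : K) * (u * x p.1.1 * x p.1.2 + v * y p.1.1 * y p.1.2) := by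
    rw [cb_coe, cb_coe, Finset.mul_sum, Finset.mul_sum, ← Finset.sum_add_distrib]
    refine Finset.sum_congr rfl fun p _ => ?_
    ring
  rw [h1]
  refine (place_sum_le w _ _).trans ?_
  calc ∑ p : Mon s, w ((a p : K) * (u * x p.1.1 * x p.1.2 + v * y p.1.1 * y p.1.2))
      ≤ ∑ _p : Mon s, CD * E := by
        refine Finset.sum_le_sum fun p _ => ?_
        rw [map_mul, place_intCast]
        exact mul_le_mul (ha p) (h _ _) (apply_nonneg _ _) hCD
    _ = md s * CD * E := by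
        rw [Finset.sum_const, Finset.card_univ, nsmul_eq_mul, mul_assoc]

theorem cb_le {s : ℕ} (x : Fin s → 𝓞 K) (B CD : ℝ) (a : Mon s → ℤ)
    (ha : ∀ p, |(a p : ℝ)| ≤ CD) (w : InfinitePlace K) (hx : ∀ j, w (x j : K) ≤ B)
    (hB : 0 ≤ B) (hCD : 0 ≤ CD) : w ((cb a x : 𝓞 K) : K) ≤ md s * CD * B ^ 2 := by
  rw [cb_coe]
  refine (place_sum_le w _ _).trans ?_
  calc ∑ p : Mon s, w ((a p : K) * ((x p.1.1 : K) * (x p.1.2 : K)))
      ≤ ∑ _p : Mon s, CD * B ^ 2 := by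
        refine Finset.sum_le_sum fun p _ => ?_
        rw [map_mul, place_intCast, map_mul, sq]
        exact mul_le_mul (ha p) (mul_le_mul (hx _) (hx _) (apply_nonneg _ _) hB)
          (mul_nonneg (apply_nonneg _ _) (apply_nonneg _ _)) hCD
    _ = md s * CD * B ^ 2 := by
        rw [Finset.sum_const, Finset.card_univ, nsmul_eq_mul, mul_assoc]

/-- the additive group of the elements of the dual of the ring of integers -/
def dualGroup (hDUA : T_DUA K) : AddSubgroup K where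
  carrier := {a | InD a}
  add_mem' := fun {a b} ha hb => hDUA.1 a b ha hb
  zero_mem' := by
    have := hDUA.2.2.2.1 (0 : 𝓞 K)
    simpa using this
  neg_mem' := fun {a} ha => by
    have h0 : InD ((0 : 𝓞 K) : K) := hDUA.2.2.2.1 (0 : 𝓞 K)
    have h1 := hDUA.2.1 _ _ h0 ha
    have h2 : ((0 : 𝓞 K) : K) - a = -a := by simp
    rw [h2] at h1
    exact h1

end aux

/-- the number of the frequencies in one class -/
theorem fibre {K : Type} [Field K] [NumberField K] (hCL2 : T_CL2 K)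
    (hDUA : T_DUA K) (hDUB : T_DUB K) {CN : ℝ}
    (hCNT : ∀ (a b a' b' : 𝓞 K) (J : ℝ) (S : Finset (K × K)), a * b' - a' * b ≠ 0 →
      (∀ w : InfinitePlace K, w ((a * b' - a' * b : 𝓞 K) : K) ≤ J) →
      (∀ q ∈ S, InD q.1 ∧ InD q.2) →
      (∀ q ∈ S, ∀ q' ∈ S, ∀ w : InfinitePlace K, w ((q.1 - q'.1) * a + (q.2 - q'.2) * b) ≤ J ∧
        w ((q.1 - q'.1) * a' + (q.2 - q'.2) * b') ≤ J) →
      (S.card : ℝ) * nm ((a * b' - a' * b : 𝓞 K) : K) ≤ CN * J ^ (2 * dg K))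
    {ι : Type} [Fintype ι] [DecidableEq ι] (ω : Module.Basis ι ℤ (𝓞 K)) {s Q A J : ℕ} [NeZero Q]
    (x y : Fin s → 𝓞 K) (hx : Prm x) (hA : 1 ≤ A) (hQ : Q = 2 * A * J)
    (a a' : Mon s → ℤ) (C₁ CD C₂ : ℝ) (hCD : 0 ≤ CD) (_hC₁ : 0 ≤ C₁)
    (ha : ∀ p, |(a p : ℝ)| ≤ CD ∧ |(a' p : ℝ)| ≤ CD)
    (hΔ : cb a x * cb a' y - cb a' x * cb a y ≠ 0)
    (hΔJ : ∀ w : InfinitePlace K,
      w ((cb a x * cb a' y - cb a' x * cb a y : 𝓞 K) : K) ≤ C₂ * J)
    (hC₂ : 4 * (md s * CD * C₁) ≤ C₂)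
    (F : Finset ((ι → ZMod Q) × (ι → ZMod Q))) (θ φ α β : (ι → ZMod Q) × (ι → ZMod Q) → K)
    (h1 : ∀ z ∈ F, ∀ l, Q * Algebra.trace ℚ K (θ z * ω l) = ((z.1 l).val : ℚ))
    (h2 : ∀ z ∈ F, ∀ l, Q * Algebra.trace ℚ K (φ z * ω l) = ((z.2 l).val : ℚ))
    (h3 : ∀ z ∈ F, ∀ i l, InD (α z * x i * x l + β z * y i * y l))
    (h4 : ∀ z ∈ F, ∀ i l (w : InfinitePlace K),
      w ((θ z - α z) * x i * x l + (φ z - β z) * y i * y l) ≤ C₁ / A)
    (hcl : ∀ z ∈ F, ∀ z' ∈ F, InD (β z - β z')) :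
    (F.card : ℝ) * nm ((cb a x * cb a' y - cb a' x * cb a y : 𝓞 K) : K) ≤
      CN * (C₂ * J) ^ (2 * dg K) := by
  classical
  obtain ⟨-, -, hdual⟩ := hDUB ι ω
  obtain ⟨dadd, dsub, dmul, dint, -⟩ := hDUA
  have hQ0 : (Q : K) ≠ 0 := by exact_mod_cast NeZero.ne Q
  have hQq : (Q : ℚ) ≠ 0 := by exact_mod_cast NeZero.ne Q
  have hAR : (0 : ℝ) < A := by exact_mod_cast hA
  -- the differences of the `α`
  have hal : ∀ z ∈ F, ∀ z' ∈ F, InD (α z - α z') := by
    intro z hz z' hz'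
    refine hCL2 s x _ hx fun i l => ?_
    have g1 := dsub _ _ (h3 z hz i l) (h3 z' hz' i l)
    have g2 := dmul (y i * y l) _ (hcl z hz z' hz')
    have g3 := dsub _ _ g1 g2
    have e : (α z * x i * x l + β z * y i * y l) - (α z' * x i * x l + β z' * y i * y l) -
        ((y i * y l : 𝓞 K) : K) * (β z - β z') = (α z - α z') * x i * x l := by
      push_cast
      ring
    rwa [e] at g3
  have htr : ∀ (c : K) (l : ι), Algebra.trace ℚ K ((Q : K) * c * ω l) =
      Q * Algebra.trace ℚ K (c * ω l) := by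
    intro c l
    have e : (Q : K) * c * ω l = (Q : ℚ) • (c * ω l) := by
      rw [Algebra.smul_def, map_natCast]
      ring
    rw [e, map_smul, smul_eq_mul]
  rcases F.eq_empty_or_nonempty with rfl | ⟨z₀, hz₀⟩
  · rw [Finset.card_empty, Nat.cast_zero, zero_mul]
    have g := hCNT (cb a x) (cb a y) (cb a' x) (cb a' y) (C₂ * J) ∅ hΔ hΔJ (by simp) (by simp)
    simpa using g
  set G : (ι → ZMod Q) × (ι → ZMod Q) → K × K := fun z =>
    ((Q : K) * (θ z - α z + α z₀), (Q : K) * (φ z - β z + β z₀)) with hG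
  -- the points are in the dual
  have hmem : ∀ q ∈ F.image G, InD q.1 ∧ InD q.2 := by
    intro q hq
    obtain ⟨z, hz, rfl⟩ := Finset.mem_image.1 hq
    constructor
    · have g1 : InD ((Q : K) * θ z) := hdual _ fun l => ⟨((z.1 l).val : ℤ), by
        rw [htr, h1 z hz l]
        push_cast
        rfl⟩
      have g2 := dmul (Q : 𝓞 K) _ (hal z hz z₀ hz₀)
      have g3 := dsub _ _ g1 g2
      have e : (Q : K) * θ z - ((Q : 𝓞 K) : K) * (α z - α z₀) =
          (Q : K) * (θ z - α z + α z₀) := by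
        push_cast
        ring
      rwa [e] at g3
    · have g1 : InD ((Q : K) * φ z) := hdual _ fun l => ⟨((z.2 l).val : ℤ), by
        rw [htr, h2 z hz l]
        push_cast
        rfl⟩
      have g2 := dmul (Q : 𝓞 K) _ (hcl z hz z₀ hz₀)
      have g3 := dsub _ _ g1 g2
      have e : (Q : K) * φ z - ((Q : 𝓞 K) : K) * (β z - β z₀) =
          (Q : K) * (φ z - β z + β z₀) := by
        push_cast
        ring
      rwa [e] at g3
  -- injectivity
  have hval : ∀ (c d : K) (m n : ZMod Q) (l : ι), InD (c - d) →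
      Q * Algebra.trace ℚ K (c * ω l) = (m.val : ℚ) →
      Q * Algebra.trace ℚ K (d * ω l) = (n.val : ℚ) → m = n := by
    intro c d m n l hcd hm hn
    obtain ⟨k, hk⟩ := hcd (ω l)
    have e1 : (m.val : ℚ) - n.val = Q * k := by
      rw [← hm, ← hn, ← mul_sub, ← map_sub, ← sub_mul, hk]
    have e2 : (m.val : ℤ) - n.val = Q * k := by exact_mod_cast e1
    have e3 : ((m.val : ℤ) : ZMod Q) - ((n.val : ℤ) : ZMod Q) = ((Q : ℤ) : ZMod Q) * (k : ZMod Q) := by
      rw [← Int.cast_sub, e2, Int.cast_mul]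
    push_cast at e3
    rw [ZMod.natCast_zmod_val, ZMod.natCast_zmod_val, ZMod.natCast_self, zero_mul] at e3
    exact sub_eq_zero.1 e3
  have hinj : Set.InjOn G (F : Set ((ι → ZMod Q) × (ι → ZMod Q))) := by
    intro z hz z' hz' h
    have hz : z ∈ F := Finset.mem_coe.1 hz
    have hz' : z' ∈ F := Finset.mem_coe.1 hz'
    have e1 : (Q : K) * (θ z - α z + α z₀) = (Q : K) * (θ z' - α z' + α z₀) :=
      congrArg Prod.fst h
    have e2 : (Q : K) * (φ z - β z + β z₀) = (Q : K) * (φ z' - β z' + β z₀) :=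
      congrArg Prod.snd h
    have e3 : θ z - θ z' = α z - α z' := by
      have := mul_left_cancel₀ hQ0 e1
      linear_combination this
    have e4 : φ z - φ z' = β z - β z' := by
      have := mul_left_cancel₀ hQ0 e2
      linear_combination this
    refine Prod.ext (funext fun l => ?_) (funext fun l => ?_)
    · exact hval (θ z) (θ z') _ _ l (by rw [e3]; exact hal z hz z' hz') (h1 z hz l) (h1 z' hz' l)
    · exact hval (φ z) (φ z') _ _ l (by rw [e4]; exact hcl z hz z' hz') (h2 z hz l) (h2 z' hz' l)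
  -- the differences are small
  have hsm : ∀ (aa : Mon s → ℤ), (∀ p, |(aa p : ℝ)| ≤ CD) → ∀ z ∈ F, ∀ z' ∈ F,
      ∀ w : InfinitePlace K, w (((G z).1 - (G z').1) * (cb aa x : 𝓞 K) +
        ((G z).2 - (G z').2) * (cb aa y : 𝓞 K)) ≤ C₂ * J := by
    intro aa haa z hz z' hz' w
    have g1 := comb_le x y (θ z - α z) (φ z - β z) (C₁ / A) CD aa haa w
      (fun i l => h4 z hz i l w) hCD
    have g2 := comb_le x y (θ z' - α z') (φ z' - β z') (C₁ / A) CD aa haa w
      (fun i l => h4 z' hz' i l w) hCD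
    have e : ((G z).1 - (G z').1) * (cb aa x : 𝓞 K) + ((G z).2 - (G z').2) * (cb aa y : 𝓞 K) =
        (Q : K) * (((θ z - α z) * (cb aa x : 𝓞 K) + (φ z - β z) * (cb aa y : 𝓞 K)) -
          ((θ z' - α z') * (cb aa x : 𝓞 K) + (φ z' - β z') * (cb aa y : 𝓞 K))) := by
      simp only [hG]
      ring
    rw [e, map_mul, place_natCast]
    have g3 := place_sub_le w
      ((θ z - α z) * (cb aa x : 𝓞 K) + (φ z - β z) * (cb aa y : 𝓞 K))
      ((θ z' - α z') * (cb aa x : 𝓞 K) + (φ z' - β z') * (cb aa y : 𝓞 K))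
    have hQR : (Q : ℝ) = 2 * A * J := by rw [hQ]; push_cast; ring
    have hJ0 : (0 : ℝ) ≤ J := Nat.cast_nonneg _
    calc _ ≤ (Q : ℝ) * (md s * CD * (C₁ / A) + md s * CD * (C₁ / A)) :=
          mul_le_mul_of_nonneg_left (by linarith) (Nat.cast_nonneg _)
      _ = 4 * (md s * CD * C₁) * J := by
          rw [hQR]
          field_simp
          ring
      _ ≤ C₂ * J := mul_le_mul_of_nonneg_right hC₂ hJ0
  have g := hCNT (cb a x) (cb a y) (cb a' x) (cb a' y) (C₂ * J) (F.image G) hΔ hΔJ hmem (by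
    intro q hq q' hq' w
    obtain ⟨z, hz, rfl⟩ := Finset.mem_image.1 hq
    obtain ⟨z', hz', rfl⟩ := Finset.mem_image.1 hq'
    exact ⟨hsm a (fun p => (ha p).1) z hz z' hz' w, hsm a' (fun p => (ha p).2) z hz z' hz' w⟩)
  rwa [Finset.card_image_of_injOn hinj] at g

open Classical in
/-- **PX1.** -/
theorem pf_PX1 (K : Type) [Field K] [NumberField K] (hZST : T_ZST K) (hCLS : T_CLS K)
    (hCL2 : T_CL2 K) (hNCL : T_NCL K) (hCNT : T_CNT K) (hDLT : T_DLT K) (hNRM : T_NRM K)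
    (hDUA : T_DUA K) (hDUB : T_DUB K) : T_PX1 K := by
  intro ι _ _ ω s hs
  obtain ⟨C₁, hC₁, hZ⟩ := hZST ι ω s hs
  obtain ⟨CD, cD, hcD, hD⟩ := hDLT s
  obtain ⟨CN, hCN, hC⟩ := hCNT
  obtain ⟨-, -, -, hpm1, hpm2, hpm3, hpm4⟩ := hNRM
  set C₂ : ℝ := 4 * (md s * |CD| * C₁) + 1 with hC₂
  have hC₂1 : 1 ≤ C₂ := by
    have : 0 ≤ 4 * (md s * |CD| * C₁) := by positivity
    linarith
  set C : ℝ := 1 + C₁ + 2 * (md s * |CD|) ^ 2 + CN * C₂ ^ (2 * dg K) / cD ^ dg K with hCdef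
  have hp1 : 0 ≤ 2 * (md s * |CD|) ^ 2 := by positivity
  have hp2 : 0 ≤ CN * C₂ ^ (2 * dg K) / cD ^ dg K := by positivity
  refine ⟨C, by linarith, ?_⟩
  intro b A J Q _ c x y D hb hA hcA hQ hJ gx gy hDw
  have hb0 : (0 : ℝ) < b := by exact_mod_cast hb
  have hcA' : C₁ * (b : ℝ) ^ 4 ≤ c * A :=
    (mul_le_mul_of_nonneg_right (by linarith) (by positivity)).trans hcA
  have hex := hZ b A J Q c x y D hb hA hcA' hQ gx gy hDw
  choose! θ φ α β h1 h2 h3 h4 h5 using hex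
  obtain ⟨a, a', ha, hΔw⟩ := hD ((b : ℝ) ^ 4) x y gx.bd gy.bd gx.big gy.big
  have ha' : ∀ p, |(a p : ℝ)| ≤ |CD| ∧ |(a' p : ℝ)| ≤ |CD| := fun p =>
    ⟨(ha p).1.trans (le_abs_self _), (ha p).2.trans (le_abs_self _)⟩
  set Δ : 𝓞 K := cb a x * cb a' y - cb a' x * cb a y with hΔ
  have hΔD : ∀ w : InfinitePlace K, cD * (b : ℝ) ^ 8 * D w ≤ w (Δ : K) := by
    intro w
    obtain ⟨-, i, j, hij⟩ := hDw w
    refine le_trans ?_ (hΔw i j w)
    have e : ((b : ℝ) ^ 4) ^ 2 = (b : ℝ) ^ 8 := by rw [← pow_mul]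
    rw [e]
    exact mul_le_mul_of_nonneg_left hij (by positivity)
  obtain ⟨w₀⟩ : Nonempty (InfinitePlace K) := inferInstance
  have hΔ0 : Δ ≠ 0 := by
    intro h0
    have g1 := hΔD w₀
    rw [h0] at g1
    have g2 : w₀ (((0 : 𝓞 K)) : K) = 0 := by simp
    rw [g2] at g1
    have g3 : 0 < cD * (b : ℝ) ^ 8 * D w₀ := mul_pos (by positivity) (hDw w₀).1
    linarith
  have hΔJ : ∀ w : InfinitePlace K, w (Δ : K) ≤ C₂ * J := by
    intro w
    have q1 := cb_le x ((b : ℝ) ^ 4) |CD| a (fun p => (ha' p).1) w (fun j => gx.bd j w)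
      (by positivity) (abs_nonneg _)
    have q2 := cb_le y ((b : ℝ) ^ 4) |CD| a' (fun p => (ha' p).2) w (fun j => gy.bd j w)
      (by positivity) (abs_nonneg _)
    have q3 := cb_le x ((b : ℝ) ^ 4) |CD| a' (fun p => (ha' p).2) w (fun j => gx.bd j w)
      (by positivity) (abs_nonneg _)
    have q4 := cb_le y ((b : ℝ) ^ 4) |CD| a (fun p => (ha' p).1) w (fun j => gy.bd j w)
      (by positivity) (abs_nonneg _)
    have e : (Δ : K) = ((cb a x : 𝓞 K) : K) * ((cb a' y : 𝓞 K) : K) -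
        ((cb a' x : 𝓞 K) : K) * ((cb a y : 𝓞 K) : K) := by
      rw [hΔ]
      push_cast
      ring
    have q5 := place_sub_le w (((cb a x : 𝓞 K) : K) * ((cb a' y : 𝓞 K) : K))
      (((cb a' x : 𝓞 K) : K) * ((cb a y : 𝓞 K) : K))
    rw [← e, map_mul, map_mul] at q5
    have hX0 : 0 ≤ md s * |CD| * ((b : ℝ) ^ 4) ^ 2 := by positivity
    have q6 := mul_le_mul q1 q2 (apply_nonneg _ _) hX0
    have q7 := mul_le_mul q3 q4 (apply_nonneg _ _) hX0
    have q8 : w (Δ : K) ≤ 2 * (md s * |CD|) ^ 2 * (b : ℝ) ^ 16 := by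
      refine q5.trans ((add_le_add q6 q7).trans (le_of_eq ?_))
      ring
    have hJ0 : (0 : ℝ) ≤ J := Nat.cast_nonneg _
    calc w (Δ : K) ≤ 2 * (md s * |CD|) ^ 2 * (b : ℝ) ^ 16 := q8
      _ ≤ C * (b : ℝ) ^ 16 := mul_le_mul_of_nonneg_right (by linarith) (by positivity)
      _ ≤ J := hJ
      _ ≤ C₂ * J := by nlinarith
  -- the lower bound for the norm
  have hnm : cD ^ dg K * ((b : ℝ) ^ (8 * dg K) * pm D) ≤ nm (Δ : K) := by
    have g1 : pm (fun w : InfinitePlace K => cD * (b : ℝ) ^ 8 * D w) ≤ nm (Δ : K) :=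
      hpm3 _ _ (fun w => (mul_pos (by positivity) (hDw w).1).le) hΔD
    refine le_trans (le_of_eq ?_) g1
    have g2 := hpm2 (fun _ => cD * (b : ℝ) ^ 8) D
    rw [g2, hpm1, mul_pow, ← pow_mul]
    ring
  -- the ideal is not zero
  have hg0 : gi x y ≠ ⊥ := by
    obtain ⟨hw0, i, j, hij⟩ := hDw w₀
    intro h0
    have g1 : mnr x y i j ∈ gi x y := Ideal.subset_span ⟨(i, j), rfl⟩
    rw [h0, Ideal.mem_bot] at g1
    rw [g1] at hij
    have g2 : w₀ (((0 : 𝓞 K)) : K) = 0 := by simp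
    rw [g2] at hij
    linarith
  -- the classes
  set H : AddSubgroup K := dualGroup hDUA with hH
  have hHm : ∀ u v : K, (QuotientAddGroup.mk u : K ⧸ H) = QuotientAddGroup.mk v ↔ InD (u - v) := by
    intro u v
    rw [eq_comm, QuotientAddGroup.eq]
    have e : -v + u = u - v := by ring
    rw [e]
    exact Iff.rfl
  set Z := zs ω Q J x y with hZdef
  set f : (ι → ZMod Q) × (ι → ZMod Q) → K ⧸ H := fun z => QuotientAddGroup.mk (β z) with hf
  have hrep : ∀ t ∈ Z.image f, ∃ z ∈ Z, f z = t := fun t ht => Finset.mem_image.1 ht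
  choose! r hrZ hrf using hrep
  have hcardT : (Z.image f).card ≤ Ideal.absNorm (gi x y) := by
    have g1 : ((Z.image f).image fun t => β (r t)).card = (Z.image f).card := by
      refine Finset.card_image_of_injOn ?_
      intro t ht t' ht' h
      have e1 : f (r t) = f (r t') := congrArg (fun u => (QuotientAddGroup.mk u : K ⧸ H)) h
      rw [hrf t (Finset.mem_coe.1 ht), hrf t' (Finset.mem_coe.1 ht')] at e1
      exact e1
    rw [← g1]
    refine hNCL (gi x y) _ hg0 ?_ ?_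
    · intro β' hβ' g hg
      obtain ⟨t, ht, rfl⟩ := Finset.mem_image.1 hβ'
      exact (hCLS s x y _ _ gx.prm gy.prm (h3 (r t) (hrZ t ht)) g hg).2
    · intro u hu v hv huv
      obtain ⟨t, ht, rfl⟩ := Finset.mem_image.1 hu
      obtain ⟨t', ht', rfl⟩ := Finset.mem_image.1 hv
      have e1 : f (r t) = f (r t') := (hHm _ _).2 huv
      rw [hrf t ht, hrf t' ht'] at e1
      rw [e1]
  have hfib : ∀ t ∈ Z.image f, ((Z.filter fun z => f z = t).card : ℝ) * nm (Δ : K) ≤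
      CN * (C₂ * J) ^ (2 * dg K) := by
    intro t _
    refine fibre hCL2 hDUA hDUB hC ω x y gx.prm hA hQ a a' C₁ |CD| C₂ (abs_nonneg _)
      (by linarith) ha' hΔ0 hΔJ (by linarith) _ θ φ α β
      (fun z hz => h1 z (Finset.mem_filter.1 hz).1) (fun z hz => h2 z (Finset.mem_filter.1 hz).1)
      (fun z hz => h3 z (Finset.mem_filter.1 hz).1) (fun z hz => h4 z (Finset.mem_filter.1 hz).1)
      ?_
    intro z hz z' hz'
    refine (hHm _ _).1 ?_
    have e1 : f z = t := (Finset.mem_filter.1 hz).2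
    have e2 : f z' = t := (Finset.mem_filter.1 hz').2
    exact e1.trans e2.symm
  have hsum : (Z.card : ℝ) * nm (Δ : K) ≤
      Ideal.absNorm (gi x y) * (CN * (C₂ * J) ^ (2 * dg K)) := by
    rw [Finset.card_eq_sum_card_image f Z]
    push_cast
    rw [Finset.sum_mul]
    refine (Finset.sum_le_sum hfib).trans ?_
    rw [Finset.sum_const, nsmul_eq_mul]
    refine mul_le_mul_of_nonneg_right (by exact_mod_cast hcardT) (by positivity)
  have hpD : 0 ≤ (b : ℝ) ^ (8 * dg K) * pm D :=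
    mul_nonneg (by positivity) (hpm4 D fun w => (hDw w).1).le
  have hcDp : 0 < cD ^ dg K := by positivity
  have hfin : (Z.card : ℝ) * ((b : ℝ) ^ (8 * dg K) * pm D) ≤
      (CN * C₂ ^ (2 * dg K) / cD ^ dg K) * Ideal.absNorm (gi x y) * (J : ℝ) ^ (2 * dg K) := by
    have e1 : (Z.card : ℝ) * (cD ^ dg K * ((b : ℝ) ^ (8 * dg K) * pm D)) ≤
        (Z.card : ℝ) * nm (Δ : K) := mul_le_mul_of_nonneg_left hnm (Nat.cast_nonneg _)
    have e2 := e1.trans hsum
    have e3 : (Z.card : ℝ) * ((b : ℝ) ^ (8 * dg K) * pm D) =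
        ((Z.card : ℝ) * (cD ^ dg K * ((b : ℝ) ^ (8 * dg K) * pm D))) / cD ^ dg K := by
      field_simp
    rw [e3, div_le_iff₀ hcDp]
    refine e2.trans (le_of_eq ?_)
    rw [mul_pow]
    field_simp
  refine hfin.trans ?_
  refine mul_le_mul_of_nonneg_right ?_ (by positivity)
  exact mul_le_mul_of_nonneg_right (by linarith) (Nat.cast_nonneg _)

end Pool.Agent.H81.RK
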