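import Pool.Agent.H32.RK.TargetsE

/-!
# Pairs of quadratic forms over a number field: a polynomial has few zeros in the box (row SZL)
-/

set_option autoImplicit false

open Finset NumberField Pool.Agent.H32.RK
open Pool.Agent.H32.RQ (Mon md)

namespace Pool.Agent.H81.RK

/-- the polynomial in the coordinates -/
noncomputable def lift {K : Type} [Field K] [NumberField K] {ι : Type} [Fintype ι]
    (ω : Module.Basis ι ℤ (𝓞 K)) {τ : Type} (P : MvPolynomial τ ℤ) :
    MvPolynomial (τ × ι) (𝓞 K) :=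
  MvPolynomial.aeval (fun q : τ => ∑ l, MvPolynomial.C (ω l) * MvPolynomial.X (q, l)) P

theorem eval_lift {K : Type} [Field K] [NumberField K] {ι : Type} [Fintype ι]
    (ω : Module.Basis ι ℤ (𝓞 K)) {τ : Type} (P : MvPolynomial τ ℤ) (x : τ × ι → ℤ) :
    MvPolynomial.eval (fun i => (x i : 𝓞 K)) (lift ω P) =
      MvPolynomial.aeval (fun q : τ => el ω fun l => x (q, l)) P := by
  unfold lift
  have h1 : (MvPolynomial.eval (fun i => (x i : 𝓞 K)))
      (MvPolynomial.aeval
        (fun q : τ => ∑ l, MvPolynomial.C (ω l) * MvPolynomial.X (q, l)) P) =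
      MvPolynomial.aeval (fun q : τ => MvPolynomial.eval (fun i => (x i : 𝓞 K))
        (∑ l, MvPolynomial.C (ω l) * MvPolynomial.X (q, l))) P := by
    rw [MvPolynomial.aeval_def, MvPolynomial.aeval_def, MvPolynomial.hom_eval₂]
    congr 1
    exact RingHom.ext_int _ _
  rw [h1]
  congr 2
  funext q
  unfold el
  rw [map_sum]
  refine Finset.sum_congr rfl fun l _ => ?_
  rw [map_mul, MvPolynomial.eval_C, MvPolynomial.eval_X, zsmul_eq_mul, mul_comm]

theorem lift_ne_zero {K : Type} [Field K] [NumberField K] {ι : Type} [Fintype ι]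
    (ω : Module.Basis ι ℤ (𝓞 K)) {τ : Type} (P : MvPolynomial τ ℤ) (hP : P ≠ 0) :
    lift ω P ≠ 0 := by
  intro h0
  apply hP
  have hinj : Function.Injective (Int.castRingHom (𝓞 K)) := Int.cast_injective
  apply MvPolynomial.map_injective _ hinj
  rw [map_zero]
  have h1 : (MvPolynomial.aeval (R := 𝓞 K)
      (fun p : τ × ι => (MvPolynomial.C ((ω.repr 1 p.2 : ℤ) : 𝓞 K) * MvPolynomial.X p.1 :
        MvPolynomial τ (𝓞 K)))) (lift ω P) =
      MvPolynomial.map (Int.castRingHom (𝓞 K)) P := by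
    unfold lift
    have h2 : (MvPolynomial.aeval (R := 𝓞 K)
        (fun p : τ × ι => (MvPolynomial.C ((ω.repr 1 p.2 : ℤ) : 𝓞 K) * MvPolynomial.X p.1 :
          MvPolynomial τ (𝓞 K))))
        (MvPolynomial.aeval
          (fun q : τ => ∑ l, MvPolynomial.C (ω l) * MvPolynomial.X (q, l)) P) =
        MvPolynomial.aeval (fun q : τ => (MvPolynomial.aeval (R := 𝓞 K)
          (fun p : τ × ι => (MvPolynomial.C ((ω.repr 1 p.2 : ℤ) : 𝓞 K) * MvPolynomial.X p.1 :
            MvPolynomial τ (𝓞 K))))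
          (∑ l, MvPolynomial.C (ω l) * MvPolynomial.X (q, l))) P := by
      have := MvPolynomial.hom_eval₂ P (algebraMap ℤ (MvPolynomial (τ × ι) (𝓞 K)))
        ((MvPolynomial.aeval (R := 𝓞 K)
          (fun p : τ × ι => (MvPolynomial.C ((ω.repr 1 p.2 : ℤ) : 𝓞 K) * MvPolynomial.X p.1 :
            MvPolynomial τ (𝓞 K)))) : MvPolynomial (τ × ι) (𝓞 K) →+* MvPolynomial τ (𝓞 K))
        (fun q : τ => ∑ l, MvPolynomial.C (ω l) * MvPolynomial.X (q, l))
      rw [MvPolynomial.aeval_def, MvPolynomial.aeval_def (R := ℤ)]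
      refine this.trans ?_
      congr 1
      exact RingHom.ext_int _ _
    rw [h2]
    have h3 : (fun q : τ => (MvPolynomial.aeval (R := 𝓞 K)
          (fun p : τ × ι => (MvPolynomial.C ((ω.repr 1 p.2 : ℤ) : 𝓞 K) * MvPolynomial.X p.1 :
            MvPolynomial τ (𝓞 K))))
          (∑ l, MvPolynomial.C (ω l) * MvPolynomial.X (q, l))) = fun q => MvPolynomial.X q := by
      funext q
      rw [map_sum]
      have h4 : ∀ l, (MvPolynomial.aeval (R := 𝓞 K)
          (fun p : τ × ι => (MvPolynomial.C ((ω.repr 1 p.2 : ℤ) : 𝓞 K) * MvPolynomial.X p.1 :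
            MvPolynomial τ (𝓞 K)))) (MvPolynomial.C (ω l) * MvPolynomial.X (q, l)) =
          MvPolynomial.C ((ω.repr 1 l) • ω l) * MvPolynomial.X q := by
        intro l
        rw [map_mul, MvPolynomial.aeval_X, MvPolynomial.algHom_C, zsmul_eq_mul]
        show MvPolynomial.C (ω l) * (MvPolynomial.C ((ω.repr 1 l : ℤ) : 𝓞 K) *
          MvPolynomial.X q) = _
        rw [MvPolynomial.C_mul]
        ring
      rw [Finset.sum_congr rfl fun l _ => h4 l, ← Finset.sum_mul, ← map_sum, ω.sum_repr, map_one,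
        one_mul]
    rw [h3, MvPolynomial.aeval_def]
    have h5 := MvPolynomial.eval₂_eq_eval_map (algebraMap ℤ (MvPolynomial τ (𝓞 K)))
      (fun q => MvPolynomial.X q) P
    have h6 : algebraMap ℤ (MvPolynomial τ (𝓞 K)) =
        (MvPolynomial.C).comp (Int.castRingHom (𝓞 K)) := RingHom.ext_int _ _
    rw [h6]
    rw [← MvPolynomial.eval₂_map, MvPolynomial.eval₂_eta]
  rw [← h1, h0, map_zero]

open Classical in
theorem pf_SZL (K : Type) [Field K] [NumberField K] (_hCRD : T_CRD) : T_SZL K := by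
  intro ι _ _ ω s P hP ε hε
  set e := Fintype.equivFin ((Fin 2 × Mon s) × ι) with he
  set Q := MvPolynomial.rename e (lift ω P) with hQ
  set D : ℕ := Q.totalDegree with hD
  refine ⟨⌈(D : ℝ) / ε⌉₊, fun A hA => ?_⟩
  have hQ0 : Q ≠ 0 := by
    intro h
    apply lift_ne_zero ω P hP
    apply MvPolynomial.rename_injective e e.injective
    rw [← hQ, h, map_zero]
  have hn : Fintype.card ((Fin 2 × Mon s) × ι) = 2 * md s * Fintype.card ι := by
    rw [Fintype.card_prod, Fintype.card_prod, Fintype.card_fin]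
  have hcinj : Function.Injective (fun n : ℤ => (n : 𝓞 K)) := Int.cast_injective
  set S : Finset (𝓞 K) := (Finset.Icc (-(A : ℤ)) A).image fun n : ℤ => (n : 𝓞 K) with hSdef
  have hS : S.card = 2 * A + 1 := by
    rw [hSdef, Finset.card_image_of_injective _ hcinj, Int.card_Icc]
    omega
  have h1 := MvPolynomial.schwartz_zippel_totalDegree hQ0 S
  have h2 : ((bx ι s A).filter fun c =>
      MvPolynomial.aeval (fun q : Fin 2 × Mon s => ec ω c q.1 q.2) P = 0).card ≤
      ((Fintype.piFinset fun _ : Fin (Fintype.card ((Fin 2 × Mon s) × ι)) =>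
        S).filter fun f => MvPolynomial.eval f Q = 0).card := by
    apply Finset.card_le_card_of_injOn
      (fun c : Fin 2 → Mon s → ι → ℤ => fun i =>
        ((c (e.symm i).1.1 (e.symm i).1.2 (e.symm i).2 : ℤ) : 𝓞 K))
    · intro c hc
      have hc' := Finset.mem_filter.mp (Finset.mem_coe.mp hc)
      apply Finset.mem_coe.mpr
      rw [Finset.mem_filter]
      refine ⟨?_, ?_⟩
      · rw [Fintype.mem_piFinset]
        intro i
        have h3 := hc'.1
        unfold bx at h3
        rw [Fintype.mem_piFinset] at h3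
        have h4 := h3 (e.symm i).1.1
        rw [Fintype.mem_piFinset] at h4
        have h5 := h4 (e.symm i).1.2
        unfold bo at h5
        rw [Fintype.mem_piFinset] at h5
        exact Finset.mem_image_of_mem _ (h5 (e.symm i).2)
      · rw [hQ, MvPolynomial.eval_rename]
        have h5 : ((fun i => ((c (e.symm i).1.1 (e.symm i).1.2 (e.symm i).2 : ℤ) : 𝓞 K)) ∘ e) =
            (fun q : (Fin 2 × Mon s) × ι => ((c q.1.1 q.1.2 q.2 : ℤ) : 𝓞 K)) := by
          funext q
          simp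
        rw [h5, eval_lift ω P fun q => c q.1.1 q.1.2 q.2]
        exact hc'.2
    · intro c _ c' _ h
      funext i p l
      have h6 := congrFun h (e ((i, p), l))
      simp only [Equiv.symm_apply_apply] at h6
      exact hcinj h6
  rw [hS] at h1
  have h7 : (((Fintype.piFinset fun _ : Fin (Fintype.card ((Fin 2 × Mon s) × ι)) =>
        S).filter fun f => MvPolynomial.eval f Q = 0).card : ℝ) /
        (((2 * A + 1 : ℕ) : ℝ) ^ (Fintype.card ((Fin 2 × Mon s) × ι))) ≤
        (D : ℝ) / ((2 * A + 1 : ℕ) : ℝ) := by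
    have h1' := (NNRat.cast_le (K := ℝ)).mpr h1
    push_cast at h1'
    push_cast
    exact h1'
  have hpow : ((2 * A + 1 : ℕ) : ℝ) ^ (Fintype.card ((Fin 2 × Mon s) × ι)) =
      ((2 * A + 1 : ℕ) : ℝ) ^ (2 * md s * Fintype.card ι) := by rw [hn]
  rw [hpow] at h7
  have hM : (0 : ℝ) < ((2 * A + 1 : ℕ) : ℝ) := by
    exact_mod_cast Nat.succ_pos _
  have hMp : (0 : ℝ) < ((2 * A + 1 : ℕ) : ℝ) ^ (2 * md s * Fintype.card ι) := pow_pos hM _
  have h8 : (D : ℝ) / ((2 * A + 1 : ℕ) : ℝ) ≤ ε := by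
    rw [div_le_iff₀ hM]
    have h9 : (D : ℝ) / ε ≤ (A : ℝ) := le_trans (Nat.le_ceil _) (by exact_mod_cast hA)
    rw [div_le_iff₀ hε] at h9
    have h10 : (A : ℝ) ≤ ((2 * A + 1 : ℕ) : ℝ) := by
      push_cast
      have : (0 : ℝ) ≤ (A : ℝ) := Nat.cast_nonneg A
      linarith
    nlinarith
  have h11 := le_trans h7 h8
  rw [div_le_iff₀ hMp] at h11
  have h12 : (((bx ι s A).filter fun c =>
      MvPolynomial.aeval (fun q : Fin 2 × Mon s => ec ω c q.1 q.2) P = 0).card : ℝ) ≤
      (((Fintype.piFinset fun _ : Fin (Fintype.card ((Fin 2 × Mon s) × ι)) =>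
        S).filter fun f => MvPolynomial.eval f Q = 0).card : ℝ) := by
    exact_mod_cast h2
  refine le_trans h12 (le_trans h11 (le_of_eq ?_))
  push_cast
  ring

end Pool.Agent.H81.RK
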